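import Mathlib
import Pool.Agent.U980.AD.Main

/-!
# Definitions for MP_d61fbb_ag.FourthMoments
-/

set_option autoImplicit false

open Module

noncomputable section

namespace Pool.Agent.H320R.FM

open Pool.Agent.Y114.TF Pool.Agent.Y114.RM Pool.Agent.H204R3.GP Pool.Agent.R913.Adj

section one

variable {k W : Type} [Field k] [AddCommGroup W] [Module k W] {Γ : Type} [Group Γ]
  (ρ : Representation k Γ W)

/-- `X` kills all Tate tensors (in any number of arguments in the space and its dual space). -/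
def KillsTate (X : End k W) : Prop :=
  ∀ (m : ℕ) (φ : Tensor k W m), TateTensor ρ φ → KillsTensor X φ

/-- `X` and `Y` commute. -/
def Comm (X Y : End k W) : Prop := ∀ x, X (Y x) = Y (X x)

end one

section many

variable {k : Type} [Field k] {ι : Type} {V : ι → Type} [∀ i, AddCommGroup (V i)]
  [∀ i, Module k (V i)] {Γ : Type} [Group Γ]

/-- The space of alternating forms of degree `2 m` on the product of the spaces `V_{s 0}, V_{s 1}, ...` -/
abbrev Alt (k : Type) [Field k] {ι : Type} (V : ι → Type) [∀ i, AddCommGroup (V i)]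
    [∀ i, Module k (V i)] {q : ℕ} (s : Fin q → ι) (m : ℕ) : Type :=
  (∀ a, V (s a)) [⋀^Fin (2 * m)]→ₗ[k] k

/-- A bilinear form is nondegenerate. -/
def NonDegForm {U : Type} [AddCommGroup U] [Module k U] (ω : U →ₗ[k] U →ₗ[k] k) : Prop :=
  ∀ x, (∀ y, ω x y = 0) → x = 0

/-- `g` is a similitude with multiplier `c`. -/
def IsSim {U : Type} [AddCommGroup U] [Module k U] (ω : U →ₗ[k] U →ₗ[k] k) (g : End k U) (c : k) :
    Prop := ∀ x y, ω (g x) (g y) = c * ω x y

/-- The forms `ω i` are nondegenerate, and `Γ` acts by similitudes with multiplier `χ`. -/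
def Polarized (ρ : ∀ i, Representation k Γ (V i)) (χ : Γ →* k) (ω : ∀ i, V i →ₗ[k] V i →ₗ[k] k) :
    Prop := ∀ i, NonDegForm (ω i) ∧ ∀ g, IsSim (ω i) (ρ i g) (χ g)

/-- A class on the product of the `A_{s a}` is a Tate class: `g ^ * f = χ(g) ^ m f` for all `g` in a
subgroup of finite index of `Γ`. -/
def IsTate (ρ : ∀ i, Representation k Γ (V i)) (χ : Γ →* k) {q m : ℕ} {s : Fin q → ι}
    (f : Alt k V s m) : Prop :=
  ∃ Δ : Subgroup Γ, Δ.FiniteIndex ∧ ∀ g ∈ Δ, ∀ v,
    f (fun l a => ρ (s a) g (v l a)) = χ g ^ m * f v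

variable [DecidableEq ι]

/-- The component of `X` on the `i`-th summand. -/
def comp (X : End k (∀ i, V i)) (i : ι) (x : V i) : V i := X (Pi.single i x) i

/-- `X` acts on the polarizations with the multiplier `ν`. -/
def Multiplier (ω : ∀ i, V i →ₗ[k] V i →ₗ[k] k) (X : End k (∀ i, V i)) (ν : k) : Prop :=
  ∀ i x y, ω i (comp X i x) y + ω i x (comp X i y) = ν * ω i x y

/-- A class on the product of the `A_{s a}` is a Hodge class (with coefficients in `ℚ_ℓ`): the
derivation of the form by `X` in `𝔤` is `m ν f`, where `ν` is the multiplier of `X`. -/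
def IsHodge (𝔤 : Submodule k (End k (∀ i, V i))) (ω : ∀ i, V i →ₗ[k] V i →ₗ[k] k) {q m : ℕ}
    {s : Fin q → ι} (f : Alt k V s m) : Prop :=
  ∀ X ∈ 𝔤, ∀ ν, Multiplier ω X ν → ∀ v,
    ∑ l, f (Function.update v l fun a => comp X (s a) (v l a)) = m * ν * f v

/-- The Lie algebra of `𝒢_1`: the elements of `𝔤` with multiplier zero. -/
def lieMotivic (𝔤 : Submodule k (End k (∀ i, V i))) (ω : ∀ i, V i →ₗ[k] V i →ₗ[k] k) :
    Set (End k (∀ i, V i)) := {X | X ∈ 𝔤 ∧ Multiplier ω X 0}

/-- The maps `End (V i) → End (V j)` which commute with the conjugations by a subgroup of finite index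
commute with the elements of `𝔤` of multiplier zero. -/
def Moments (ρ : ∀ i, Representation k Γ (V i)) (𝔤 : Submodule k (End k (∀ i, V i)))
    (ω : ∀ i, V i →ₗ[k] V i →ₗ[k] k) : Prop :=
  ∀ (i j : ι) (T : End k (V i) →ₗ[k] End k (V j)), IsTateMap (ρ i) (ρ j) T →
    ∀ X ∈ lieMotivic 𝔤 ω, CommutesAd T (bl i X) (bl j X)

end many

section defs

variable (Γ : Type) [Group Γ] {ι : Type} (n : ι → ℕ) (ℓ : ℕ) [Fact ℓ.Prime]

/-- Representations of `Γ` on the spaces `ℚ_ℓ ^ (n i)`. -/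
abbrev Reps : Type := ∀ i, Representation ℚ_[ℓ] Γ (Fin (n i) → ℚ_[ℓ])

/-- Spaces of endomorphisms of the direct sum of the spaces `ℚ_ℓ ^ (n i)`. -/
abbrev EndSpace : Type := Submodule ℚ_[ℓ] (End ℚ_[ℓ] (∀ i, Fin (n i) → ℚ_[ℓ]))

/-- Bilinear forms on the spaces `ℚ_ℓ ^ (n i)`. -/
abbrev Forms : Type :=
  ∀ i, (Fin (n i) → ℚ_[ℓ]) →ₗ[ℚ_[ℓ]] (Fin (n i) → ℚ_[ℓ]) →ₗ[ℚ_[ℓ]] ℚ_[ℓ]

/-- The cohomology in degree `2 m` of the product of the abelian varieties `A_{s 0}, ..., A_{s (q-1)}`
(with the Tate twist by `m`, see `IsTate` and `IsHodge`): alternating forms of degree `2 m` on the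
product of their Tate modules. -/
abbrev Coh {q : ℕ} (s : Fin q → ι) (m : ℕ) : Type :=
  Alt ℚ_[ℓ] (fun i => Fin (n i) → ℚ_[ℓ]) s m

variable {Γ n ℓ} (ρ : Reps Γ n ℓ) (𝔤 : EndSpace n ℓ) (ω : Forms n ℓ)

/-- The representations are continuous. -/
def Conts [TopologicalSpace Γ] : Prop := ∀ i, Continuous fun g => LinearMap.toMatrix' (ρ i g)

/-- Some element acts purely of a weight `w ≠ 0` on all summands (like a Frobenius element). -/
def PureOfWeight : Prop := ∃ w : ℤ, w ≠ 0 ∧ ∃ γ : Γ, ActsPurely ρ (fun _ => w) γ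

variable [DecidableEq ι]

/-- The elements of `𝔤` have multipliers. -/
def Similitudes : Prop := ∀ X ∈ 𝔤, ∃ ν, Multiplier ω X ν

variable [Fintype ι]

/-- `𝔤` has the properties of the Lie algebra of the motivic Galois group (see `IsMotivic`), and it
contains the scalars. -/
def Motivic : Prop := IsMotivic ρ 𝔤 ∧ (1 : End ℚ_[ℓ] (∀ i, Fin (n i) → ℚ_[ℓ])) ∈ 𝔤

/-- The direct sum is semisimple as a representation of every subgroup of finite index. -/
def Semisimple : Prop := FiniteIndexSemisimple (sumRep ρ)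

/-- The Lie algebra of `G_{1,ℓ}` (for a semisimple representation): the operators which kill all Tate
tensors, with multiplier zero. -/
def lieGalois : Set (End ℚ_[ℓ] (∀ i, Fin (n i) → ℚ_[ℓ])) :=
  {X | KillsTate (sumRep ρ) X ∧ Multiplier ω X 0}

/-- The equality of the question for the identity components. -/
def SatoTate : Prop := lieGalois ρ ω = lieMotivic 𝔤 ω

/-- The maps `End (V i) → End (V j)` which commute with the conjugations by a subgroup of finite index
commute with the Lie algebra of `𝒢_1`. -/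
def FourthMoments : Prop := Moments ρ 𝔤 ω

/-- The centre of the Lie algebra of `𝒢_1` is contained in the Lie algebra of `G_{1,ℓ}`. -/
def CentreST : Prop :=
  ∀ Z ∈ lieMotivic 𝔤 ω, (∀ U ∈ lieMotivic 𝔤 ω, Comm Z U) → Z ∈ lieGalois ρ ω

/-- The Mumford-Tate form: the Tate tensors are the tensors killed by `𝔤`. -/
def MumfordTate : Prop :=
  ∀ (m : ℕ) (φ : Tensor ℚ_[ℓ] (∀ i, Fin (n i) → ℚ_[ℓ]) m),
    TateTensor (sumRep ρ) φ ↔ ∀ X ∈ 𝔤, KillsTensor X φ

/-- The centre of the Lie algebra of `𝒢_1` is zero. -/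
def CentreFree : Prop :=
  ∀ Z ∈ lieMotivic 𝔤 ω, (∀ U ∈ lieMotivic 𝔤 ω, Comm Z U) → Z = 0

variable (χ : Γ →* ℚ_[ℓ])

/-- The Tate classes of codimension two on the products `A_i ^ 2 × A_j ^ 2` are Hodge classes. -/
def HodgeInCodimTwo : Prop :=
  ∀ (i j : ι) (f : Coh n ℓ ![i, i, j, j] 2), IsTate ρ χ f → IsHodge 𝔤 ω f

/-- The Tate classes on all products are Hodge classes. -/
def HodgeOnProducts : Prop :=
  ∀ (q m : ℕ) (s : Fin q → ι) (f : Coh n ℓ s m), IsTate ρ χ f → IsHodge 𝔤 ω f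

variable (n ℓ) in
/-- Sets of classes of codimension `m` on the products. -/
abbrev Classes : Type := ∀ (q m : ℕ) (s : Fin q → ι), Set (Coh n ℓ s m)

variable (Alg : Classes n ℓ)

/-- The algebraic classes are the Hodge classes. -/
def HodgeConj : Prop :=
  ∀ (q m : ℕ) (s : Fin q → ι) (f : Coh n ℓ s m), f ∈ Alg q m s ↔ IsHodge 𝔤 ω f

/-- The Tate classes of codimension two on the products `A_i ^ 2 × A_j ^ 2` are algebraic. -/
def TateInCodimTwo : Prop :=
  ∀ (i j : ι) (f : Coh n ℓ ![i, i, j, j] 2), IsTate ρ χ f → f ∈ Alg 4 2 ![i, i, j, j]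

/-- The Tate classes on all products are algebraic. -/
def TateOnProducts : Prop :=
  ∀ (q m : ℕ) (s : Fin q → ι) (f : Coh n ℓ s m), IsTate ρ χ f → f ∈ Alg q m s

end defs

end Pool.Agent.H320R.FM

end
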