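import Pool.Agent.H320R.FM.Defs

/-!
# Proof of MP_d61fbb_ag.FourthMoments
-/

set_option autoImplicit false

open Module

noncomputable section

namespace Pool.Agent.H320R.FM

open Pool.Agent.Y114.TF Pool.Agent.Y114.RM Pool.Agent.H204R3.GP Pool.Agent.R913.Adj

variable {ι : Type} [Fintype ι] [DecidableEq ι] {n : ι → ℕ} {ℓ : ℕ} [Fact ℓ.Prime]
  {Γ : Type} [Group Γ] [TopologicalSpace Γ] [IsTopologicalGroup Γ] [CompactSpace Γ]

theorem main (ρ : Reps Γ n ℓ) (hρ : Conts ρ) (𝔤 : EndSpace n ℓ) (h𝔤 : Motivic ρ 𝔤)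
    (χ : Γ →* ℚ_[ℓ]) (ω : Forms n ℓ) (hω : Polarized ρ χ ω) (hsim : Similitudes 𝔤 ω)
    (hss : Semisimple ρ) (hw : PureOfWeight ρ) :
    lieGalois ρ ω ⊆ lieMotivic 𝔤 ω ∧
    (SatoTate ρ 𝔤 ω ↔ FourthMoments ρ 𝔤 ω ∧ CentreST ρ 𝔤 ω) ∧
    (SatoTate ρ 𝔤 ω ↔ MumfordTate ρ 𝔤) ∧
    (CentreFree 𝔤 ω → (SatoTate ρ 𝔤 ω ↔ FourthMoments ρ 𝔤 ω)) ∧
    (CentreST ρ 𝔤 ω →
      (SatoTate ρ 𝔤 ω ↔ HodgeInCodimTwo ρ 𝔤 ω χ) ∧
      (SatoTate ρ 𝔤 ω ↔ HodgeOnProducts ρ 𝔤 ω χ) ∧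
      ∀ Alg : Classes n ℓ, HodgeConj 𝔤 ω Alg →
        (SatoTate ρ 𝔤 ω ↔ TateInCodimTwo ρ χ Alg) ∧
        (SatoTate ρ 𝔤 ω ↔ TateOnProducts ρ χ Alg)) := by
  obtain ⟨h𝔤, hone⟩ := h𝔤
  have hp1 : ∀ i x, (∀ y, ω i x y = 0) → x = 0 := fun i => (hω i).1
  have hp2 : ∀ i g x y, ω i (ρ i g x) (ρ i g y) = χ g * ω i x y := fun i => (hω i).2
  -- the scalars kill the Tate tensors
  have h1k : KillsTate (sumRep ρ) (1 : End ℚ_[ℓ] (∀ i, Fin (n i) → ℚ_[ℓ])) := by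
    intro m φ hφ
    obtain ⟨w, hw0, γ, hγ⟩ := hw
    have hw1 : (w : ℚ_[ℓ]) ≠ 0 := Int.cast_ne_zero.2 hw0
    have h1 : weightOp (k := ℚ_[ℓ]) (fun i => Fin (n i) → ℚ_[ℓ]) (fun _ => w) =
        (w : ℚ_[ℓ]) • (1 : End ℚ_[ℓ] (∀ i, Fin (n i) → ℚ_[ℓ])) := by
      refine LinearMap.ext fun x => funext fun i => ?_
      rfl
    have h2 := U980.AD.kills_smul ((w : ℚ_[ℓ])⁻¹) (weight_kills ρ hss hγ m φ hφ)
    rwa [h1, smul_smul, inv_mul_cancel₀ hw1, one_smul] at h2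
  -- the decomposition into the part of multiplier zero and the scalars
  have hdec : ∀ X ∈ 𝔤, ∃ (X₁ : End ℚ_[ℓ] (∀ i, Fin (n i) → ℚ_[ℓ])) (c : ℚ_[ℓ]),
      X₁ ∈ lieMotivic 𝔤 ω ∧ X = X₁ + c • 1 := by
    intro X hX
    obtain ⟨ν, hν⟩ := hsim X hX
    refine ⟨X - (ν / 2) • 1, ν / 2, ⟨𝔤.sub_mem hX (𝔤.smul_mem _ hone), ?_⟩, by
      rw [sub_add_cancel]⟩
    intro i x y
    have h1 : ∀ z : Fin (n i) → ℚ_[ℓ], comp (X - (ν / 2) • 1) i z = comp X i z - (ν / 2) • z := by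
      intro z
      unfold comp
      rw [LinearMap.sub_apply, LinearMap.smul_apply, Module.End.one_apply, Pi.sub_apply,
        Pi.smul_apply, Pi.single_eq_same]
    have h2 := hν i x y
    rw [h1, h1, map_sub, map_sub, map_smul, map_smul, LinearMap.sub_apply, LinearMap.smul_apply,
      smul_eq_mul]
    have h3 : ω i (comp X i x) y - ν / 2 * ω i x y + (ω i x (comp X i y) - ν / 2 * ω i x y) =
        (ω i (comp X i x) y + ω i x (comp X i y)) - ν * ω i x y := by ring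
    rw [zero_mul, h3, h2, sub_self]
  have hsub : lieGalois ρ ω ⊆ lieMotivic 𝔤 ω := by
    rintro X ⟨hX, hX0⟩
    exact ⟨h𝔤.algebraic X fun m φ hφ => hX m φ (h𝔤.tate m φ hφ), hX0⟩
  have hST : SatoTate ρ 𝔤 ω ↔ U980.AD.AllKilled ρ 𝔤 := by
    constructor
    · intro h m φ hφ X hX
      obtain ⟨X₁, c, h1, rfl⟩ := hdec X hX
      have h2 : X₁ ∈ lieGalois ρ ω := by
        rw [SatoTate] at h
        rw [h]
        exact h1
      exact U980.AD.kills_add (h2.1 m φ hφ) (U980.AD.kills_smul c (h1k m φ hφ))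
    · intro h
      refine Set.Subset.antisymm hsub ?_
      rintro X ⟨hX, hX0⟩
      exact ⟨fun m φ hφ => h m φ hφ X hX, hX0⟩
  have hadj : AdjointMaps ρ 𝔤 ↔ FourthMoments ρ 𝔤 ω := by
    constructor
    · intro h i j T hT X hX
      exact h i j T hT X hX.1
    · intro h i j T hT X hX
      obtain ⟨X₁, c, h1, rfl⟩ := hdec X hX
      intro A
      have h2 := h i j T hT X₁ h1 A
      have h3 : ∀ i : ι, bl (V := fun i => Fin (n i) → ℚ_[ℓ]) i (X₁ + c • 1) =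
          bl (V := fun i => Fin (n i) → ℚ_[ℓ]) i X₁ + c • 1 := by
        intro i
        rw [map_add, map_smul]
        congr 2
        refine LinearMap.ext fun x => ?_
        change (Pi.single i x : ∀ i, Fin (n i) → ℚ_[ℓ]) i = x
        rw [Pi.single_eq_same]
      have h4 : ∀ (i : ι) (B : End ℚ_[ℓ] (Fin (n i) → ℚ_[ℓ])),
          adE (bl (V := fun i => Fin (n i) → ℚ_[ℓ]) i (X₁ + c • 1)) B =
            adE (bl (V := fun i => Fin (n i) → ℚ_[ℓ]) i X₁) B := by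
        intro i B
        rw [h3]
        change (bl (V := fun i => Fin (n i) → ℚ_[ℓ]) i X₁ + c • 1) * B -
          B * (bl (V := fun i => Fin (n i) → ℚ_[ℓ]) i X₁ + c • 1) =
          bl (V := fun i => Fin (n i) → ℚ_[ℓ]) i X₁ * B -
          B * bl (V := fun i => Fin (n i) → ℚ_[ℓ]) i X₁
        rw [add_mul, mul_add, smul_mul_assoc, one_mul, mul_smul_comm, mul_one,
          add_sub_add_right_eq_sub]
      rw [h4, h4]
      exact h2
  have hcen : U980.AD.CentreKills ρ 𝔤 ↔ CentreST ρ 𝔤 ω := by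
    constructor
    · intro h Z hZ hZc
      refine ⟨fun m φ hφ => h Z hZ.1 (fun U hU => ?_) m φ hφ, hZ.2⟩
      obtain ⟨U₁, c, h1, rfl⟩ := hdec U hU
      rw [mul_add, add_mul, mul_smul_comm, mul_one, smul_mul_assoc, one_mul]
      congr 1
      exact LinearMap.ext fun x => hZc U₁ h1 x
    · intro h Z hZ hZc m φ hφ
      obtain ⟨Z₁, c, h1, rfl⟩ := hdec Z hZ
      have h2 : Z₁ ∈ lieGalois ρ ω := by
        refine h Z₁ h1 fun U hU x => ?_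
        have h3 := hZc U hU.1
        rw [mul_add, add_mul, mul_smul_comm, mul_one, smul_mul_assoc, one_mul] at h3
        exact LinearMap.congr_fun (add_right_cancel h3) x
      exact U980.AD.kills_add (h2.1 m φ hφ) (U980.AD.kills_smul c (h1k m φ hφ))
  have hmain : SatoTate ρ 𝔤 ω ↔ FourthMoments ρ 𝔤 ω ∧ CentreST ρ 𝔤 ω := by
    rw [hST, ← hadj, ← hcen]
    exact ⟨fun h => ⟨U980.AD.adjoint_of_all ρ hρ h𝔤 h, U980.AD.centre_of_all ρ hρ h𝔤 h⟩,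
      fun h => U980.AD.allKilled_of ρ hρ h𝔤 hss h.1 h.2⟩
  refine ⟨hsub, hmain, ?_, ?_, ?_⟩
  · rw [hST]
    exact ⟨fun h m φ => ⟨fun hφ => h m φ hφ, fun hφ => h𝔤.tate m φ hφ⟩,
      fun h m φ hφ => (h m φ).1 hφ⟩
  · intro h0
    rw [hmain]
    refine ⟨fun h => h.1, fun h => ⟨h, fun Z hZ hZc => ?_⟩⟩
    have h1 := h0 Z hZ hZc
    subst h1
    refine ⟨fun m φ hφ => ?_, hZ.2⟩
    have h2 := U980.AD.kills_smul (0 : ℚ_[ℓ]) (h1k m φ hφ)
    rwa [zero_smul] at h2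
  · intro hc
    have hcc : U980.AD.CentreKills ρ 𝔤 := hcen.2 hc
    have hto : SatoTate ρ 𝔤 ω →
        ∀ (q m : ℕ) (s : Fin q → ι) (f : Coh n ℓ s m), IsTate ρ χ f → IsHodge 𝔤 ω f := by
      intro h q m s f hf X hX ν hν v
      have h2 := U980.AD.hodge_of_all ρ hρ h𝔤 hp1 hp2 (hST.1 h) f hf X hX ν hν v
      rw [U980.AD.der_apply] at h2
      exact h2
    have hfrom : (∀ (i j : ι) (f : Coh n ℓ ![i, i, j, j] 2), IsTate ρ χ f → IsHodge 𝔤 ω f) →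
        SatoTate ρ 𝔤 ω := by
      intro h
      refine hST.2 (U980.AD.allKilled_of ρ hρ h𝔤 hss
        (U980.AD.adjoint_of_codim ρ hρ h𝔤 hp1 hp2 hsim ?_) hcc)
      intro i j f hf X hX ν hν v
      rw [U980.AD.der_apply]
      exact h i j f hf X hX ν hν v
    refine ⟨⟨fun h i j f => hto h 4 2 _ f, hfrom⟩,
      ⟨hto, fun h => hfrom fun i j f => h 4 2 _ f⟩, fun Alg hAlg => ⟨?_, ?_⟩⟩
    · exact ⟨fun h i j f hf => (hAlg 4 2 _ f).2 (hto h 4 2 _ f hf),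
        fun h => hfrom fun i j f hf => (hAlg 4 2 _ f).1 (h i j f hf)⟩
    · exact ⟨fun h q m s f hf => (hAlg q m s f).2 (hto h q m s f hf),
        fun h => hfrom fun i j f hf => (hAlg 4 2 _ f).1 (h 4 2 _ f hf)⟩

end Pool.Agent.H320R.FM

end
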